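import Pool.Agent.W872.MX.StmB

/-! PART.EMBS of project MX (MP_a05470_co): embedding with slack (adapted from helper717's EMB). -/

set_option autoImplicit false

namespace Pool.Agent.W400.MX.EMBS

open Finset W872.MX

/-- the defect relation of colour `c` -/
def Dd {n : ℕ} (G : MG (Fin n)) (c : Bool) (u v : Fin n) : Prop :=
  if c = true then (u ≠ v ∧ ¬ G.blue.Adj u v) else (u ≠ v ∧ ¬ G.red.Adj u v)

theorem Dd_true {n : ℕ} (G : MG (Fin n)) (u v : Fin n) :
    Dd G true u v ↔ (u ≠ v ∧ ¬ G.blue.Adj u v) := by simp [Dd]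

theorem Dd_false {n : ℕ} (G : MG (Fin n)) (u v : Fin n) :
    Dd G false u v ↔ (u ≠ v ∧ ¬ G.red.Adj u v) := by simp [Dd]

theorem Dd_symm {n : ℕ} (G : MG (Fin n)) : ∀ c u v, Dd G c u v → Dd G c v u := by
  intro c u v h
  cases c
  · rw [Dd_false] at h ⊢
    exact ⟨h.1.symm, fun h' => h.2 h'.symm⟩
  · rw [Dd_true] at h ⊢
    exact ⟨h.1.symm, fun h' => h.2 h'.symm⟩

theorem key {n : ℕ} (G : MG (Fin n)) (U : Finset (Fin n))
    (hdef : ∀ v ∈ U, nonred G U v + nonblue G U v ≤ 1) :
    ∀ v ∈ U, ∀ u ∈ U, ∀ u' ∈ U, ∀ c c', Dd G c v u → Dd G c' v u' → c = c' ∧ u = u' := by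
  classical
  intro v hv u hu u' hu' c c' h h'
  have h1 := hdef v hv
  have e1 : nonred G U v = (U.filter (fun u => Dd G false v u)).card := by
    unfold nonred
    congr 1
    ext w
    simp only [mem_filter, Dd_false, ne_comm]
  have e2 : nonblue G U v = (U.filter (fun u => Dd G true v u)).card := by
    unfold nonblue
    congr 1
    ext w
    simp only [mem_filter, Dd_true, ne_comm]
  rw [e1, e2] at h1
  cases c <;> cases c'
  · refine ⟨rfl, ?_⟩
    have h2 : (U.filter (fun u => Dd G false v u)).card ≤ 1 := by omega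
    rw [card_le_one] at h2
    exact h2 u (mem_filter.2 ⟨hu, h⟩) u' (mem_filter.2 ⟨hu', h'⟩)
  · exfalso
    have h2 : 0 < (U.filter (fun u => Dd G false v u)).card :=
      card_pos.2 ⟨u, mem_filter.2 ⟨hu, h⟩⟩
    have h3 : 0 < (U.filter (fun u => Dd G true v u)).card :=
      card_pos.2 ⟨u', mem_filter.2 ⟨hu', h'⟩⟩
    omega
  · exfalso
    have h2 : 0 < (U.filter (fun u => Dd G true v u)).card :=
      card_pos.2 ⟨u, mem_filter.2 ⟨hu, h⟩⟩
    have h3 : 0 < (U.filter (fun u => Dd G false v u)).card :=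
      card_pos.2 ⟨u', mem_filter.2 ⟨hu', h'⟩⟩
    omega
  · refine ⟨rfl, ?_⟩
    have h2 : (U.filter (fun u => Dd G true v u)).card ≤ 1 := by omega
    rw [card_le_one] at h2
    exact h2 u (mem_filter.2 ⟨hu, h⟩) u' (mem_filter.2 ⟨hu', h'⟩)

/-- the defect pairs of `U`, as an injective map from pairs -/
theorem pairs {n : ℕ} (G : MG (Fin n)) (U : Finset (Fin n))
    (hdef : ∀ v ∈ U, nonred G U v + nonblue G U v ≤ 1) (P : Bool → Finset (Fin n))
    (hP : ∀ c v, v ∈ P c ↔ v ∈ U ∧ ∃ u ∈ U, Dd G c v u ∧ v < u) :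
    ((P true).card + (P false).card) * 2 ≤ U.card ∧
    ∃ (col : Fin (P true).card ⊕ Fin (P false).card → Bool)
      (low : Fin (P true).card ⊕ Fin (P false).card → Fin n)
      (g : (Fin (P true).card ⊕ Fin (P false).card) × Bool → Fin n),
      (∀ a, col (Sum.inl a) = true) ∧ (∀ b, col (Sum.inr b) = false) ∧
      (∀ x, g (x, false) = low x) ∧ (∀ x, g x ∈ U) ∧ Function.Injective g ∧
      (∀ x, Dd G (col x) (low x) (g (x, true))) ∧
      (∀ c v, v ∈ P c → ∃ z, col z = c ∧ low z = v) := by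
  classical
  have hsym := Dd_symm G
  have key := key G U hdef
  have hm' : ∀ c v, ∃ u, v ∈ P c → u ∈ U ∧ Dd G c v u ∧ v < u := by
    intro c v
    by_cases hv : v ∈ P c
    · obtain ⟨_, u, hu, h1, h2⟩ := (hP c v).1 hv
      exact ⟨u, fun _ => ⟨hu, h1, h2⟩⟩
    · exact ⟨v, fun h => absurd h hv⟩
  choose m hm using hm'
  let et : Fin (P true).card ≃ {v // v ∈ P true} := (P true).equivFin.symm
  let ef : Fin (P false).card ≃ {v // v ∈ P false} := (P false).equivFin.symm
  let low : Fin (P true).card ⊕ Fin (P false).card → Fin n :=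
    Sum.elim (fun a => (et a : Fin n)) (fun b => (ef b : Fin n))
  let col : Fin (P true).card ⊕ Fin (P false).card → Bool :=
    Sum.elim (fun _ => true) (fun _ => false)
  have hlow : ∀ x, low x ∈ P (col x) := by
    rintro (a | b)
    · exact (et a).2
    · exact (ef b).2
  have hlowU : ∀ x, low x ∈ U := fun x => ((hP _ _).1 (hlow x)).1
  have hlowinj : ∀ x y, low x = low y → x = y := by
    intro x y hxy
    have h1 := hm _ _ (hlow x)
    have h2 := hm _ _ (hlow y)
    have h3 : Dd G (col y) (low x) (m (col y) (low y)) := by rw [hxy]; exact h2.2.1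
    have h4 := (key (low x) (hlowU x) _ h1.1 _ h2.1 _ _ h1.2.1 h3).1
    rcases x with a | b <;> rcases y with a' | b'
    · have : et a = et a' := Subtype.ext hxy
      rw [et.injective this]
    · exact absurd h4 (by simp [col])
    · exact absurd h4 (by simp [col])
    · have : ef b = ef b' := Subtype.ext hxy
      rw [ef.injective this]
  let g : (Fin (P true).card ⊕ Fin (P false).card) × Bool → Fin n :=
    fun x => if x.2 = true then m (col x.1) (low x.1) else low x.1
  have hgt : ∀ x, g (x, true) = m (col x) (low x) := fun x => by simp [g]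
  have hgf : ∀ x, g (x, false) = low x := fun x => by simp [g]
  have hgU : ∀ x, g x ∈ U := by
    rintro ⟨x, b⟩
    cases b
    · rw [hgf]; exact hlowU x
    · rw [hgt]; exact (hm _ _ (hlow x)).1
  have hmix : ∀ x y, low x ≠ m (col y) (low y) := by
    intro x y hxy
    have h1 := hm _ _ (hlow x)
    have h2 := hm _ _ (hlow y)
    have h3 : Dd G (col y) (low x) (low y) := by
      apply hsym
      rw [hxy]
      exact h2.2.1
    have h4 := (key (low x) (hlowU x) _ h1.1 _ (hlowU y) _ _ h1.2.1 h3).2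
    have h5 := h1.2.2
    have h6 := h2.2.2
    rw [h4] at h5
    rw [← hxy] at h6
    exact lt_asymm h5 h6
  have hginj : Function.Injective g := by
    rintro ⟨x, b⟩ ⟨y, b'⟩ h
    cases b <;> cases b'
    · rw [hgf, hgf] at h
      rw [hlowinj x y h]
    · rw [hgf, hgt] at h
      exact absurd h (hmix x y)
    · rw [hgf, hgt] at h
      exact absurd h.symm (hmix y x)
    · rw [hgt, hgt] at h
      have h1 := hm _ _ (hlow x)
      have h2 := hm _ _ (hlow y)
      have h3 := hsym _ _ _ h1.2.1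
      have h4 := hsym _ _ _ h2.2.1
      rw [← h] at h4
      have h5 := (key _ h1.1 _ (hlowU x) _ (hlowU y) _ _ h3 h4).2
      rw [hlowinj x y h5]
  refine ⟨?_, col, low, g, fun _ => rfl, fun _ => rfl, hgf, hgU, hginj, ?_, ?_⟩
  · have h1 : Fintype.card ((Fin (P true).card ⊕ Fin (P false).card) × Bool) ≤
        Fintype.card {v // v ∈ U} :=
      Fintype.card_le_of_injective (fun x => (⟨g x, hgU x⟩ : {v // v ∈ U}))
        (fun x y h => hginj (congrArg Subtype.val h))
    simpa using h1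
  · intro x
    rw [hgt]
    exact (hm _ _ (hlow x)).2.1
  · intro c v hv
    cases c
    · refine ⟨Sum.inr (ef.symm ⟨_, hv⟩), rfl, ?_⟩
      show ((ef (ef.symm ⟨_, hv⟩) : {v // v ∈ P false}) : Fin n) = _
      rw [Equiv.apply_symm_apply]
    · refine ⟨Sum.inl (et.symm ⟨_, hv⟩), rfl, ?_⟩
      show ((et (et.symm ⟨_, hv⟩) : {v // v ∈ P true}) : Fin n) = _
      rw [Equiv.apply_symm_apply]

theorem core {n : ℕ} (G : MG (Fin n)) (U : Finset (Fin n)) {W : Type} [Fintype W]
    [DecidableEq W] (R : SimpleGraph W) (T : Finset W) (i j : ℕ) (hT : T.Nonempty)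
    (hdef : ∀ v ∈ U, nonred G U v + nonblue G U v ≤ 1) (P : Bool → Finset (Fin n))
    (hP : ∀ c v, v ∈ P c ↔ v ∈ U ∧ ∃ u ∈ U, Dd G c v u ∧ v < u)
    (hcard : U.card = T.card) (hi : (P true).card ≤ i) (hj : (P false).card ≤ j)
    (hRB : HasRB R T i j) : EmbIn G U R T := by
  classical
  have hsym := Dd_symm G
  have key := key G U hdef
  obtain ⟨_, col, low, g, hcolt, hcolf, hgf, hgU, hginj, hgD, hsurj⟩ := pairs G U hdef P hP
  obtain ⟨f, hfT, hfR, hfB⟩ := hRB
  let q : Fin (P true).card ⊕ Fin (P false).card → Fin i ⊕ Fin j :=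
    Sum.map (Fin.castLE hi) (Fin.castLE hj)
  have hq : Function.Injective q :=
    Sum.map_injective.2 ⟨Fin.castLE_injective hi, Fin.castLE_injective hj⟩
  let F : (Fin (P true).card ⊕ Fin (P false).card) × Bool → {w // w ∈ T} :=
    fun x => ⟨f (q x.1, x.2), hfT _⟩
  have hF : Function.Injective F := by
    rintro ⟨x, b⟩ ⟨y, b'⟩ h
    have h1 : f (q x, b) = f (q y, b') := congrArg Subtype.val h
    have h2 := f.injective h1
    rw [Prod.mk.injEq] at h2 ⊢
    exact ⟨hq h2.1, h2.2⟩
  obtain ⟨w₀, hw₀⟩ := hT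
  have hU : U.Nonempty := by
    rw [← card_pos, hcard]
    exact card_pos.2 ⟨w₀, hw₀⟩
  obtain ⟨d, hd⟩ := hU
  obtain ⟨φ, hφ⟩ := Finset.exists_equiv_extend_of_card_eq (α := {w // w ∈ T}) (t := U)
    (by rw [Fintype.card_coe, hcard]) (s := univ.image F)
    (f := Function.extend F g (fun _ => d))
    (by
      intro v hv
      simp only [mem_image, mem_univ, true_and] at hv
      obtain ⟨_, ⟨x, rfl⟩, rfl⟩ := hv
      rw [hF.extend_apply]
      exact hgU x)
    (by
      intro a ha b hb hab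
      simp only [coe_image, coe_univ, Set.image_univ, Set.mem_range] at ha hb
      obtain ⟨x, rfl⟩ := ha
      obtain ⟨y, rfl⟩ := hb
      rw [hF.extend_apply, hF.extend_apply] at hab
      rw [hginj hab])
  have hφF : ∀ x, (φ (F x) : Fin n) = g x := by
    intro x
    rw [hφ (F x) (mem_image.2 ⟨x, mem_univ _, rfl⟩), hF.extend_apply]
  -- a defect pair comes from a pair of the matching
  have hpair : ∀ c, ∀ x y : {w // w ∈ T}, Dd G c (φ x) (φ y) →
      ∃ z, col z = c ∧ ((x = F (z, false) ∧ y = F (z, true)) ∨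
        (x = F (z, true) ∧ y = F (z, false))) := by
    have aux : ∀ c, ∀ x y : {w // w ∈ T}, Dd G c (φ x) (φ y) → (φ x : Fin n) < φ y →
        ∃ z, col z = c ∧ (x = F (z, false) ∧ y = F (z, true)) := by
      intro c x y h hlt
      have h1 : (φ x : Fin n) ∈ P c := (hP _ _).2 ⟨(φ x).2, _, (φ y).2, h, hlt⟩
      obtain ⟨z, hz1, hz2⟩ : ∃ z, col z = c ∧ low z = (φ x : Fin n) := hsurj c _ h1
      refine ⟨z, hz1, ?_, ?_⟩
      · apply φ.injective
        apply Subtype.ext
        rw [hφF, hgf, hz2]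
      · apply φ.injective
        apply Subtype.ext
        rw [hφF]
        have h3 : Dd G (col z) (φ x) (g (z, true)) := by rw [← hz2]; exact hgD z
        exact (key _ (φ x).2 _ (φ y).2 _ (hgU _) _ _ h h3).2
    intro c x y h
    have hne : (φ x : Fin n) ≠ φ y := by
      cases c
      · exact ((Dd_false _ _ _).1 h).1
      · exact ((Dd_true _ _ _).1 h).1
    rcases lt_or_gt_of_ne hne with hlt | hlt
    · obtain ⟨z, hz, h1⟩ := aux c x y h hlt
      exact ⟨z, hz, Or.inl h1⟩
    · obtain ⟨z, hz, h1⟩ := aux c y x (hsym _ _ _ h) hlt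
      exact ⟨z, hz, Or.inr ⟨h1.2, h1.1⟩⟩
  refine ⟨fun w => if h : w ∈ T then (φ ⟨w, h⟩ : Fin n) else d, ?_, ?_, ?_⟩
  · intro x hx y hy hxy
    have hx' : x ∈ T := hx
    have hy' : y ∈ T := hy
    simp only [dif_pos hx', dif_pos hy'] at hxy
    have := φ.injective (Subtype.ext hxy)
    exact congrArg Subtype.val this
  · intro x hx
    simp only [dif_pos hx]
    exact (φ ⟨x, hx⟩).2
  · intro x hx y hy
    simp only [dif_pos hx, dif_pos hy]
    constructor
    · intro hR
      by_contra hcon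
      have hne : (φ ⟨x, hx⟩ : Fin n) ≠ φ ⟨y, hy⟩ := by
        intro h
        have := φ.injective (Subtype.ext h)
        exact hR.ne (congrArg Subtype.val this)
      obtain ⟨z, hz, h1⟩ := hpair false _ _ ((Dd_false _ _ _).2 ⟨hne, hcon⟩)
      rcases z with a | b
      · exact absurd hz (by simp [hcolt])
      · have h2 := hfB (Fin.castLE hj b)
        rw [SimpleGraph.compl_adj] at h2
        rcases h1 with ⟨h3, h4⟩ | ⟨h3, h4⟩
        · have h5 : x = f (Sum.inr (Fin.castLE hj b), false) := congrArg Subtype.val h3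
          have h6 : y = f (Sum.inr (Fin.castLE hj b), true) := congrArg Subtype.val h4
          rw [← h5, ← h6] at h2
          exact h2.2 hR
        · have h5 : x = f (Sum.inr (Fin.castLE hj b), true) := congrArg Subtype.val h3
          have h6 : y = f (Sum.inr (Fin.castLE hj b), false) := congrArg Subtype.val h4
          rw [← h5, ← h6] at h2
          exact h2.2 hR.symm
    · intro hR
      rw [SimpleGraph.compl_adj] at hR
      by_contra hcon
      have hne : (φ ⟨x, hx⟩ : Fin n) ≠ φ ⟨y, hy⟩ := by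
        intro h
        have := φ.injective (Subtype.ext h)
        exact hR.1 (congrArg Subtype.val this)
      obtain ⟨z, hz, h1⟩ := hpair true _ _ ((Dd_true _ _ _).2 ⟨hne, hcon⟩)
      rcases z with a | b
      · have h2 := hfR (Fin.castLE hi a)
        rcases h1 with ⟨h3, h4⟩ | ⟨h3, h4⟩
        · have h5 : x = f (Sum.inl (Fin.castLE hi a), false) := congrArg Subtype.val h3
          have h6 : y = f (Sum.inl (Fin.castLE hi a), true) := congrArg Subtype.val h4
          rw [← h5, ← h6] at h2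
          exact hR.2 h2
        · have h5 : x = f (Sum.inl (Fin.castLE hi a), true) := congrArg Subtype.val h3
          have h6 : y = f (Sum.inl (Fin.castLE hi a), false) := congrArg Subtype.val h4
          rw [← h5, ← h6] at h2
          exact hR.2 h2.symm
      · exact absurd hz (by simp [hcolf])

theorem main : W872.MX.PartEMBS := by
  classical
  intro n G U W _ _ R T s hT hdef hcard hPM
  obtain ⟨P, hP⟩ : ∃ P : Bool → Finset (Fin n),
      ∀ c v, v ∈ P c ↔ v ∈ U ∧ ∃ u ∈ U, Dd G c v u ∧ v < u :=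
    ⟨fun c => U.filter (fun v => ∃ u ∈ U, Dd G c v u ∧ v < u), by intro c v; simp⟩
  have h2 := (pairs G U hdef P hP).1
  obtain ⟨i', j', hi', hj', hij, hRB⟩ := hPM (P true).card (P false).card (by omega)
  obtain ⟨Kt, hKt, hKtc⟩ := exists_subset_card_eq hi'
  obtain ⟨Kf, hKf, hKfc⟩ := exists_subset_card_eq hj'
  have hX : ((P true \ Kt) ∪ (P false \ Kf)).card ≤ s := by
    have h3 := card_union_le (P true \ Kt) (P false \ Kf)
    rw [card_sdiff_of_subset hKt, card_sdiff_of_subset hKf, hKtc, hKfc] at h3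
    omega
  have hU1 : T.card ≤ (U \ ((P true \ Kt) ∪ (P false \ Kf))).card := by
    have h3 := le_card_sdiff ((P true \ Kt) ∪ (P false \ Kf)) U
    omega
  obtain ⟨U', hU', hU'c⟩ := exists_subset_card_eq hU1
  have hU'U : U' ⊆ U := hU'.trans sdiff_subset
  have hdef' : ∀ v ∈ U', nonred G U' v + nonblue G U' v ≤ 1 := by
    intro v hv
    refine le_trans (add_le_add ?_ ?_) (hdef v (hU'U hv))
    · unfold nonred
      exact card_le_card (filter_subset_filter _ hU'U)
    · unfold nonblue
      exact card_le_card (filter_subset_filter _ hU'U)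
  obtain ⟨P', hP'⟩ : ∃ P : Bool → Finset (Fin n),
      ∀ c v, v ∈ P c ↔ v ∈ U' ∧ ∃ u ∈ U', Dd G c v u ∧ v < u :=
    ⟨fun c => U'.filter (fun v => ∃ u ∈ U', Dd G c v u ∧ v < u), by intro c v; simp⟩
  have hPP : ∀ c v, v ∈ P' c → v ∈ P c := by
    intro c v hv
    obtain ⟨h3, u, hu, h4⟩ := (hP' c v).1 hv
    exact (hP c v).2 ⟨hU'U h3, u, hU'U hu, h4⟩
  have hnot : ∀ c v, v ∈ P' c → v ∉ ((P true \ Kt) ∪ (P false \ Kf)) := by
    intro c v hv
    have h3 := hU' ((hP' c v).1 hv).1
    rw [mem_sdiff] at h3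
    exact h3.2
  have ht : (P' true).card ≤ i' := by
    rw [← hKtc]
    refine card_le_card ?_
    intro v hv
    by_contra hcon
    exact hnot _ _ hv (mem_union_left _ (mem_sdiff.2 ⟨hPP _ _ hv, hcon⟩))
  have hf : (P' false).card ≤ j' := by
    rw [← hKfc]
    refine card_le_card ?_
    intro v hv
    by_contra hcon
    exact hnot _ _ hv (mem_union_right _ (mem_sdiff.2 ⟨hPP _ _ hv, hcon⟩))
  obtain ⟨f, hf1, hf2, hf3⟩ := core G U' R T i' j' hT hdef' P' hP' hU'c ht hf hRB
  exact ⟨f, hf1, fun x hx => hU'U (hf2 x hx), hf3⟩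

end Pool.Agent.W400.MX.EMBS
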